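import Pool.Agent.Run7.h800.RG.Stm

/-! Piece CDF of helper800's project RG: the distribution function of the random measure -/

set_option autoImplicit false

namespace Run7.h415.RG

open MeasureTheory ProbabilityTheory Set Filter Topology
open scoped ENNReal NNReal
open Run7.h800.RG

lemma mm_pos (n : ℕ) : 0 < mm n := by unfold mm; omega

lemma NN_pos (n : ℕ) : 0 < NN n := by
  induction n with
  | zero => simp [NN]
  | succ n ih => exact Nat.mul_pos ih (mm_pos n)

/-- partial sums of the weights -/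
noncomputable def S (n : ℕ) (θ : ℝ) (k : ℕ) : ℝ := ∑ j ∈ Finset.range k, w n θ j

lemma S_mono (h : S_ARI) (n : ℕ) (θ : ℝ) : Monotone (S n θ) := by
  intro a b hab
  exact Finset.sum_le_sum_of_subset_of_nonneg (Finset.range_mono hab) fun i _ _ => (h.2.2.1 n θ i).1

lemma S_step (h : S_ARI) (n : ℕ) (θ : ℝ) (k : ℕ) : S (n + 1) θ (mm n * k) = S n θ k := by
  induction k with
  | zero => simp [S]
  | succ k ih =>
    have h1 : S (n + 1) θ (mm n * (k + 1)) = S (n + 1) θ (mm n * k) +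
        ∑ i ∈ Finset.range (mm n), w (n + 1) θ (mm n * k + i) := by
      unfold S
      rw [Nat.mul_succ, Finset.sum_range_add]
    rw [h1, ih, h.1 n θ k]
    unfold S
    rw [Finset.sum_range_succ]

lemma S_le (h : S_ARI) (n : ℕ) (θ : ℝ) {k : ℕ} (hk : k ≤ NN n) : S n θ k ≤ 1 := by
  refine (S_mono h n θ hk).trans ?_
  have h1 : S n θ (NN n) = if θ < 0 then 0 else 1 := h.2.1 n θ
  rw [h1]
  split_ifs <;> norm_num

lemma S_nonneg (h : S_ARI) (n : ℕ) (θ : ℝ) (k : ℕ) : 0 ≤ S n θ k :=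
  Finset.sum_nonneg fun i _ => (h.2.2.1 n θ i).1

lemma ix_neg {u : ℝ} (hu : u ≤ 0) (n : ℕ) : ix n u = 0 := by
  unfold ix
  rw [Nat.floor_eq_zero]
  have : (0 : ℝ) ≤ NN n := Nat.cast_nonneg _
  nlinarith

lemma ix_lo (h : S_ARI) (n : ℕ) (u : ℝ) : mm n * ix n u ≤ ix (n + 1) u := by
  rcases le_or_gt u 0 with hu | hu
  · rw [ix_neg hu, mul_zero]; exact Nat.zero_le _
  · rw [← h.2.2.2.2.1 n u hu.le]
    exact Nat.mul_div_le _ _

lemma ix_hi (h : S_ARI) (n : ℕ) (u : ℝ) : ix (n + 1) u + 1 ≤ mm n * (ix n u + 1) := by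
  rcases le_or_gt u 0 with hu | hu
  · rw [ix_neg hu, ix_neg hu]
    have := mm_pos n
    omega
  · rw [← h.2.2.2.2.1 n u hu.le, Nat.mul_succ]
    have h1 := Nat.div_add_mod (ix (n + 1) u) (mm n)
    have h2 := Nat.mod_lt (ix (n + 1) u) (mm_pos n)
    omega

lemma ix_le (n : ℕ) {u : ℝ} (hu : u ≤ 1) : ix n u ≤ NN n := by
  unfold ix
  apply Nat.floor_le_of_le
  have : (0 : ℝ) ≤ NN n := Nat.cast_nonneg _
  nlinarith

lemma ix_mono (n : ℕ) : Monotone (ix n) := by
  intro u v huv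
  unfold ix
  exact Nat.floor_mono (mul_le_mul_of_nonneg_right huv (Nat.cast_nonneg _))

/-- approximation from below -/
noncomputable def lo (θ u : ℝ) (n : ℕ) : ℝ := S n θ (ix n u)

/-- approximation from above -/
noncomputable def hi (θ u : ℝ) (n : ℕ) : ℝ := S n θ (ix n u + 1)

lemma lo_mono (h : S_ARI) (θ u : ℝ) : Monotone (lo θ u) := by
  refine monotone_nat_of_le_succ fun n => ?_
  unfold lo
  rw [← S_step h]
  exact S_mono h _ _ (ix_lo h n u)

lemma hi_anti (h : S_ARI) (θ u : ℝ) : Antitone (hi θ u) := by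
  refine antitone_nat_of_succ_le fun n => ?_
  unfold hi
  rw [← S_step h n θ (ix n u + 1)]
  exact S_mono h _ _ (ix_hi h n u)

lemma lo_le_hi (h : S_ARI) (θ u : ℝ) (n k : ℕ) : lo θ u n ≤ hi θ u k := by
  have h1 : lo θ u (max n k) ≤ hi θ u (max n k) := S_mono h _ _ (Nat.le_succ _)
  exact (lo_mono h θ u (le_max_left n k)).trans (h1.trans (hi_anti h θ u (le_max_right n k)))

lemma lo_bdd (h : S_ARI) (θ u : ℝ) : BddAbove (Set.range (lo θ u)) := by
  refine ⟨hi θ u 0, ?_⟩
  rintro _ ⟨n, rfl⟩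
  exact lo_le_hi h θ u n 0

lemma A_eq (θ t : ℝ) : A θ t = ⨆ n : ℕ, lo θ (min t 1) n := rfl

lemma lo_le_A (h : S_ARI) (θ t : ℝ) (n : ℕ) : lo θ (min t 1) n ≤ A θ t :=
  le_ciSup (lo_bdd h θ (min t 1)) n

lemma A_le_hi (h : S_ARI) (θ t : ℝ) (n : ℕ) : A θ t ≤ hi θ (min t 1) n :=
  ciSup_le fun k => lo_le_hi h θ _ k n

lemma A_mono (h : S_ARI) (θ : ℝ) : Monotone (A θ) := by
  intro s t hst
  refine ciSup_mono (lo_bdd h θ (min t 1)) fun n => ?_
  exact S_mono h n θ (ix_mono n (min_le_min_right 1 hst))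

lemma A_zero (θ : ℝ) : A θ 0 = 0 := by
  rw [A_eq]
  have h1 : ∀ n, lo θ (min 0 1) n = 0 := by
    intro n
    unfold lo
    rw [ix_neg (min_le_left _ _)]
    simp [S]
  simp only [h1]
  exact ciSup_const

lemma A_bd (h : S_ARI) (θ t : ℝ) : 0 ≤ A θ t ∧ A θ t ≤ 1 := by
  refine ⟨(S_nonneg h 0 θ _).trans (lo_le_A h θ t 0), ciSup_le fun n => ?_⟩
  exact S_le h n θ (ix_le n (min_le_right _ _))

lemma A_meas (h : S_ARI) (t : ℝ) : Measurable fun θ => A θ t := by
  refine Measurable.iSup fun n => ?_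
  exact Finset.measurable_fun_sum _ fun j _ => h.2.2.2.1 n j

lemma A_grid (h : S_ARI) (θ : ℝ) (n j : ℕ) (hj : j ≤ NN n) :
    A θ ((j : ℝ) / (NN n : ℝ)) = ∑ i ∈ Finset.range j, w n θ i := by
  have hN : (0 : ℝ) < NN n := by exact_mod_cast NN_pos n
  set t : ℝ := (j : ℝ) / (NN n : ℝ) with ht
  have ht1 : t ≤ 1 := by
    rw [ht, div_le_one hN]; exact_mod_cast hj
  have hmin : min t 1 = t := min_eq_left ht1
  have h0 : ix n t = j := by
    unfold ix
    rw [ht, div_mul_cancel₀ _ hN.ne', Nat.floor_natCast]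
  have h1 : ∀ k, (ix (n + k) t : ℝ) = t * NN (n + k) ∧ lo θ t (n + k) = S n θ j := by
    intro k
    induction k with
    | zero =>
      refine ⟨?_, ?_⟩
      · rw [add_zero, h0, ht, div_mul_cancel₀ _ hN.ne']
      · unfold lo; rw [add_zero, h0]
    | succ k ih =>
      have h2 : ix (n + (k + 1)) t = mm (n + k) * ix (n + k) t := by
        have h3 : t * (NN (n + (k + 1)) : ℝ) = ((mm (n + k) * ix (n + k) t : ℕ) : ℝ) := by
          have h4 : NN (n + (k + 1)) = NN (n + k) * mm (n + k) := rfl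
          rw [h4]
          push_cast
          rw [ih.1]
          ring
        have h5 : ix (n + (k + 1)) t = ⌊t * (NN (n + (k + 1)) : ℝ)⌋₊ := rfl
        rw [h5, h3, Nat.floor_natCast]
      refine ⟨?_, ?_⟩
      · have h4 : NN (n + (k + 1)) = NN (n + k) * mm (n + k) := rfl
        rw [h2, h4]
        push_cast
        rw [ih.1]
        ring
      · have h6 : lo θ t (n + (k + 1)) = S (n + k + 1) θ (ix (n + (k + 1)) t) := rfl
        rw [h6, h2, S_step h]
        exact ih.2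
  refine le_antisymm ?_ ?_
  · rw [A_eq, hmin]
    refine ciSup_le fun k => ?_
    rw [show ∑ i ∈ Finset.range j, w n θ i = S n θ j from rfl, ← (h1 k).2]
    exact lo_mono h θ t (Nat.le_add_left k n)
  · have h2 := lo_le_A h θ t n
    rw [hmin] at h2
    have h3 := (h1 0).2
    rw [add_zero] at h3
    rw [h3] at h2
    exact h2

lemma A_mod (h : S_ARI) (θ : ℝ) (n : ℕ) {s t : ℝ} (hd : t - s ≤ 1 / (NN n : ℝ)) :
    A θ t ≤ A θ s + 2 * (1 / 3) ^ n := by
  have hN : (0 : ℝ) < NN n := by exact_mod_cast NN_pos n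
  have h1 : ix n (min t 1) ≤ ix n (min s 1) + 1 := by
    have h2 : min t 1 ≤ min s 1 + 1 / (NN n : ℝ) := by
      rcases le_total s 1 with hs | hs
      · rw [min_eq_left hs]
        exact (min_le_left _ _).trans (by linarith)
      · rw [min_eq_right hs]
        exact (min_le_right _ _).trans (by have : 0 < 1 / (NN n : ℝ) := by positivity
                                           linarith)
    have h3 : min t 1 * (NN n : ℝ) ≤ min s 1 * (NN n : ℝ) + 1 := by
      have := mul_le_mul_of_nonneg_right h2 hN.le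
      rw [add_mul, div_mul_cancel₀ _ hN.ne'] at this
      exact this
    have h4 : min s 1 * (NN n : ℝ) < (ix n (min s 1) : ℝ) + 1 := Nat.lt_floor_add_one _
    have h5 : ix n (min t 1) < ix n (min s 1) + 2 := by
      have h6 : ix n (min t 1) = ⌊min t 1 * (NN n : ℝ)⌋₊ := rfl
      rw [h6, Nat.floor_lt' (by omega)]
      push_cast
      linarith
    omega
  have h2 : A θ t ≤ S n θ (ix n (min s 1) + 1 + 1) :=
    (A_le_hi h θ t n).trans (S_mono h n θ (by omega))
  have h3 : S n θ (ix n (min s 1) + 1 + 1) = lo θ (min s 1) n + w n θ (ix n (min s 1)) +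
      w n θ (ix n (min s 1) + 1) := by
    unfold lo S
    rw [Finset.sum_range_succ, Finset.sum_range_succ]
  have h4 := lo_le_A h θ s n
  have h5 := (h.2.2.1 n θ (ix n (min s 1))).2
  have h6 := (h.2.2.1 n θ (ix n (min s 1) + 1)).2
  rw [h3] at h2
  linarith

lemma A_cont (h : S_ARI) (θ : ℝ) : Continuous (A θ) := by
  rw [Metric.continuous_iff]
  intro t ε hε
  obtain ⟨n, hn⟩ : ∃ n : ℕ, (1 / 3 : ℝ) ^ n < ε / 2 :=
    exists_pow_lt_of_lt_one (by positivity) (by norm_num)
  have hN : (0 : ℝ) < NN n := by exact_mod_cast NN_pos n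
  refine ⟨1 / (NN n : ℝ), by positivity, fun s hs => ?_⟩
  rw [Real.dist_eq] at hs ⊢
  have h1 := (abs_lt.1 hs).1
  have h2 := (abs_lt.1 hs).2
  rcases le_total s t with hst | hst
  · have h3 := A_mod h θ n (s := s) (t := t) (by linarith)
    have h4 := A_mono h θ hst
    rw [abs_lt]
    constructor <;> linarith
  · have h3 := A_mod h θ n (s := t) (t := s) (by linarith)
    have h4 := A_mono h θ hst
    rw [abs_lt]
    constructor <;> linarith

/-- **Piece CDF** -/
theorem t_CDF : S_ARI → S_CDF := fun h =>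
  ⟨A_cont h, A_mono h, A_zero, A_bd h, A_meas h, fun θ t ht => by
    rw [A_eq, A_eq, min_eq_right ht, min_self], fun θ n j hj => A_grid h θ n j hj⟩

end Run7.h415.RG
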