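import Pool.Agent.Run7.h415.RG.CDF

/-! Piece NAC of helper800's project RG: the random measure is singular -/

set_option autoImplicit false

namespace Run7.h415.RG

open MeasureTheory ProbabilityTheory Set Filter Topology
open scoped ENNReal NNReal
open Run7.h800.RG

/-- number of the words of allowed digits -/
noncomputable def Pp : ℕ → ℝ
  | 0 => 1
  | n + 1 => Pp n * ((mm n : ℝ) - 1)

lemma mm_cast (n : ℕ) : (mm n : ℝ) = 2 * n + 4 := by unfold mm; push_cast; ring

lemma Pp_pos (n : ℕ) : 0 < Pp n := by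
  induction n with
  | zero => simp [Pp]
  | succ n ih =>
    have h1 : (0 : ℝ) < (mm n : ℝ) - 1 := by
      rw [mm_cast]
      have : (0 : ℝ) ≤ n := Nat.cast_nonneg _
      linarith
    exact mul_pos ih h1

lemma wt_val (n : ℕ) : ∀ x j : ℕ, wt n x j = 0 ∨ wt n x j = 1 / Pp n := by
  induction n with
  | zero => intro x j; right; simp [wt, Pp]
  | succ n ih =>
    intro x j
    have e : wt (n + 1) x j = wt n (x / mm n) (j / mm n) *
      if x % mm n = j % mm n then 0 else 1 / ((mm n : ℝ) - 1) := rfl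
    have e2 : Pp (n + 1) = Pp n * ((mm n : ℝ) - 1) := rfl
    rw [e, e2]
    split_ifs
    · left; rw [mul_zero]
    · rcases ih (x / mm n) (j / mm n) with h | h
      · left; rw [h, zero_mul]
      · right; rw [h, one_div_mul_one_div]

/-- total length of the intervals of level `n` with positive mass -/
noncomputable def rr (n : ℕ) : ℝ := Pp n / NN n

lemma rr_sq (n : ℕ) : (rr n) ^ 2 ≤ 3 / (2 * n + 3) := by
  induction n with
  | zero => simp [rr, Pp, NN]
  | succ n ih =>
    have hN : (0 : ℝ) < NN n := by exact_mod_cast NN_pos n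
    have hn : (0 : ℝ) ≤ n := Nat.cast_nonneg _
    have e : rr (n + 1) = rr n * ((2 * n + 3) / (2 * n + 4)) := by
      have e1 : Pp (n + 1) = Pp n * ((mm n : ℝ) - 1) := rfl
      have e2 : NN (n + 1) = NN n * mm n := rfl
      unfold rr
      rw [e1, e2]
      push_cast
      rw [mm_cast]
      have : (2 * (n : ℝ) + 4) ≠ 0 := by positivity
      field_simp
      ring
    rw [e, mul_pow]
    have h1 : ((2 * (n : ℝ) + 3) / (2 * n + 4)) ^ 2 ≤ (2 * n + 3) / (2 * n + 5) := by
      rw [div_pow, div_le_div_iff₀ (by positivity) (by positivity)]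
      nlinarith
    calc (rr n) ^ 2 * ((2 * (n : ℝ) + 3) / (2 * n + 4)) ^ 2
        ≤ 3 / (2 * n + 3) * ((2 * n + 3) / (2 * n + 5)) :=
          mul_le_mul ih h1 (by positivity) (by positivity)
      _ = 3 / (2 * ((n + 1 : ℕ) : ℝ) + 3) := by
          push_cast
          field_simp
          ring

lemma rr_tend : Tendsto rr atTop (𝓝 0) := by
  have h1 : Tendsto (fun n : ℕ => √(3 / (2 * (n : ℝ) + 3))) atTop (𝓝 0) := by
    have h2 : Tendsto (fun n : ℕ => 3 / (2 * (n : ℝ) + 3)) atTop (𝓝 0) := by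
      refine Tendsto.div_atTop tendsto_const_nhds ?_
      refine tendsto_atTop_add_const_right _ _ ?_
      exact (tendsto_natCast_atTop_atTop).const_mul_atTop (by norm_num)
    have h3 := (Real.continuous_sqrt.tendsto 0).comp h2
    rw [Real.sqrt_zero] at h3
    exact h3
  refine squeeze_zero (fun n => ?_) (fun n => ?_) h1
  · unfold rr
    have := Pp_pos n
    positivity
  · exact Real.le_sqrt_of_sq_le (rr_sq n)

lemma Ico_diff {g : ℝ → ℝ} (hg : IntegrableOn g (Ico 0 1) volume) {s t : ℝ} (h0 : 0 ≤ s)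
    (hst : s ≤ t) (ht : t ≤ 1) :
    (∫ u in Ico (0 : ℝ) t, g u) - ∫ u in Ico (0 : ℝ) s, g u = ∫ u in Ico s t, g u := by
  have h1 : Ico (0 : ℝ) t = Ico 0 s ∪ Ico s t := (Ico_union_Ico_eq_Ico h0 hst).symm
  have h2 : Disjoint (Ico (0 : ℝ) s) (Ico s t) := by
    rw [Set.disjoint_left]
    intro x hx hx'
    exact absurd hx.2 (not_lt.2 hx'.1)
  rw [h1, setIntegral_union h2 measurableSet_Ico
    (hg.mono_set (Ico_subset_Ico le_rfl (hst.trans ht)))
    (hg.mono_set (Ico_subset_Ico h0 ht))]
  ring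

lemma gt_coe (n i : ℕ) : ((gt n i : ℝ≥0) : ℝ) = (i : ℝ) / (NN n : ℝ) := by
  unfold gt
  push_cast
  rfl

/-- **Piece NAC** -/
theorem t_NAC : S_ARI → S_CDF → S_NAC := by
  intro h hC θ hθ g hg hac
  obtain ⟨δ, hδ, hac⟩ := hac 1 (1 / 2) (by norm_num)
  set μ : Measure ℝ := volume.restrict (Ico 0 1) with hμ
  have hfin : ∫⁻ x, ‖g x‖ₑ ∂μ ≠ ∞ := hg.2.ne
  obtain ⟨δ', hδ', hint⟩ := exists_pos_setLIntegral_lt_of_measure_lt hfin
    (ε := ENNReal.ofReal (1 / 2)) (by simp)
  have hr1 : ∀ᶠ n in atTop, rr n < δ := rr_tend.eventually_lt_const hδ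
  have hr2 : ∀ᶠ n in atTop, ENNReal.ofReal (rr n) < δ' := by
    have h2 : Tendsto (fun n => ENNReal.ofReal (rr n)) atTop (𝓝 (ENNReal.ofReal 0)) :=
      (ENNReal.continuous_ofReal.tendsto 0).comp rr_tend
    rw [ENNReal.ofReal_zero] at h2
    exact h2.eventually_lt_const hδ'
  obtain ⟨n, hn1, hn2⟩ := (hr1.and hr2).exists
  have hN : (0 : ℝ) < NN n := by exact_mod_cast NN_pos n
  have hval : ∀ i, w n θ i = 0 ∨ w n θ i = 1 / Pp n := by
    intro i
    have e : w n θ i = wt n (ix n θ) i := by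
      unfold w
      rw [if_neg (not_lt.2 hθ)]
    rw [e]
    exact wt_val n _ _
  have hone : ∑ i ∈ Finset.range (NN n), w n θ i = 1 := by
    rw [h.2.1 n θ, if_neg (not_lt.2 hθ)]
  -- the number of intervals of positive mass
  have hcard : ∑ i ∈ Finset.range (NN n), (if w n θ i ≠ 0 then (1 : ℝ) / NN n else 0) = rr n := by
    have e1 : ∀ i, (if w n θ i ≠ 0 then (1 : ℝ) / NN n else 0) = rr n * w n θ i := by
      intro i
      rcases hval i with h0 | h0
      · rw [h0]; simp
      · have hp := Pp_pos n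
        have h1 : w n θ i ≠ 0 := by rw [h0]; positivity
        rw [if_pos h1, h0]
        unfold rr
        field_simp
    rw [Finset.sum_congr rfl fun i _ => e1 i, ← Finset.mul_sum, hone, mul_one]
  set s : ℕ → ℝ≥0 := fun i => gt n i with hs
  set t : ℕ → ℝ≥0 := fun i => if w n θ i ≠ 0 then gt n (i + 1) else gt n i with ht
  have hgt : ∀ i, gt n i ≤ gt n (i + 1) := by
    intro i
    rw [← NNReal.coe_le_coe, gt_coe, gt_coe]
    gcongr
    linarith
  have hst : ∀ i, s i ≤ t i := by
    intro i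
    simp only [hs, ht]
    split_ifs
    · exact hgt i
    · exact le_rfl
  have hts : ∀ i, t i ≤ gt n (i + 1) := by
    intro i
    simp only [ht]
    split_ifs
    · exact le_rfl
    · exact hgt i
  have hg1 : ∀ i < NN n, gt n (i + 1) ≤ 1 := by
    intro i hi
    rw [← NNReal.coe_le_coe, gt_coe, NNReal.coe_one, div_le_one hN]
    exact_mod_cast hi
  have hlen : ∀ i, ((t i : ℝ≥0) : ℝ) - (s i : ℝ) = if w n θ i ≠ 0 then (1 : ℝ) / NN n else 0 := by
    intro i
    simp only [hs, ht]
    split_ifs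
    · rw [gt_coe, gt_coe]
      push_cast
      ring
    · ring
  have hsum : ∑ i ∈ Finset.range (NN n), (((t i : ℝ≥0) : ℝ) - (s i : ℝ)) = rr n := by
    rw [Finset.sum_congr rfl fun i _ => hlen i, hcard]
  have hbad := hac (NN n) s t (fun i _ => hst i) (fun i hi => (hts i).trans (hg1 i hi))
    (fun i _ => hts i) (by rw [hsum]; exact hn1)
  -- the increments of `A`
  have hA : ∀ i ∈ Finset.range (NN n), A θ (t i) - A θ (s i) = w n θ i := by
    intro i hi
    have hi' := Finset.mem_range.1 hi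
    have h1 := hC.2.2.2.2.2.2 θ n i hi'.le
    have h2 := hC.2.2.2.2.2.2 θ n (i + 1) hi'
    rw [Finset.sum_range_succ] at h2
    simp only [hs, ht]
    split_ifs with h0
    · rw [gt_coe, gt_coe, h1, h2]
      ring
    · push Not at h0
      rw [h0]
      ring
  set E : ℕ → Set ℝ := fun i => Ico (s i : ℝ) (t i : ℝ) with hE
  have hEsub : ∀ i < NN n, E i ⊆ Ico 0 1 := by
    intro i hi
    refine Ico_subset_Ico (s i).2 ?_
    exact_mod_cast (hts i).trans (hg1 i hi)
  have hEdis : (↑(Finset.range (NN n)) : Set ℕ).PairwiseDisjoint E := by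
    have hlt : ∀ i j, i < j → Disjoint (E i) (E j) := by
      intro i j hij
      rw [Set.disjoint_left]
      intro x hx hx'
      have h1 : (t i : ℝ) ≤ (s j : ℝ) := by
        have h2 : t i ≤ s j := (hts i).trans (by
          simp only [hs]
          exact monotone_nat_of_le_succ hgt hij)
        exact_mod_cast h2
      exact absurd hx.2 (not_lt.2 (h1.trans hx'.1))
    intro i _ j _ hij
    rcases lt_or_gt_of_ne hij with h1 | h1
    · exact hlt i j h1
    · exact (hlt j i h1).symm
  have hvol : μ (⋃ i ∈ Finset.range (NN n), E i) < δ' := by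
    refine lt_of_le_of_lt ?_ hn2
    refine (Measure.restrict_apply_le _ _).trans ?_
    refine (measure_biUnion_finset_le _ _).trans ?_
    rw [← hsum, ENNReal.ofReal_sum_of_nonneg fun i _ => sub_nonneg.2 (by exact_mod_cast hst i)]
    refine Finset.sum_le_sum fun i _ => ?_
    simp only [hE]
    rw [Real.volume_Ico]
  have hsm := hint _ hvol
  rw [lintegral_biUnion_finset hEdis (fun i _ => measurableSet_Ico)] at hsm
  have hI : ∑ i ∈ Finset.range (NN n), |∫ u in E i, g u| < 1 / 2 := by
    have h1 : ENNReal.ofReal (∑ i ∈ Finset.range (NN n), |∫ u in E i, g u|) <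
        ENNReal.ofReal (1 / 2) := by
      refine lt_of_le_of_lt ?_ hsm
      rw [ENNReal.ofReal_sum_of_nonneg fun i _ => abs_nonneg _]
      refine Finset.sum_le_sum fun i hi => ?_
      have h2 : μ.restrict (E i) = volume.restrict (E i) := by
        rw [hμ, Measure.restrict_restrict measurableSet_Ico,
          Set.inter_eq_left.2 (hEsub i (Finset.mem_range.1 hi))]
      rw [h2]
      have h3 := enorm_integral_le_lintegral_enorm (μ := volume.restrict (E i)) g
      rw [Real.enorm_eq_ofReal_abs] at h3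
      exact h3
    exact (ENNReal.ofReal_lt_ofReal_iff (by norm_num)).1 h1
  have hterm : ∀ i ∈ Finset.range (NN n), w n θ i - |∫ u in E i, g u| ≤
      |(fun t : ℝ≥0 => A θ t - ∫ u in Ico (0 : ℝ) (min t 1), g u) (t i) -
        (fun t : ℝ≥0 => A θ t - ∫ u in Ico (0 : ℝ) (min t 1), g u) (s i)| := by
    intro i hi
    have hi' := Finset.mem_range.1 hi
    have ht1 : ((t i : ℝ≥0) : ℝ) ≤ 1 := by exact_mod_cast (hts i).trans (hg1 i hi')
    have hst1 : ((s i : ℝ≥0) : ℝ) ≤ (t i : ℝ) := by exact_mod_cast hst i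
    have h1 := Ico_diff hg (s i).2 hst1 ht1
    simp only
    rw [min_eq_left ht1, min_eq_left (hst1.trans ht1)]
    have h2 := hA i hi
    have h3 : A θ (t i) - (∫ u in Ico (0 : ℝ) (t i), g u) - (A θ (s i) - ∫ u in Ico (0 : ℝ) (s i), g u) =
        w n θ i - ∫ u in E i, g u := by
      have h1' : (∫ u in Ico (0 : ℝ) (t i), g u) - ∫ u in Ico (0 : ℝ) (s i), g u =
        ∫ u in E i, g u := h1
      linarith
    rw [h3]
    have h4 := le_abs_self (w n θ i - ∫ u in E i, g u)
    have h5 := le_abs_self (∫ u in E i, g u)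
    linarith
  have hfinal := Finset.sum_le_sum hterm
  rw [Finset.sum_sub_distrib, hone] at hfinal
  linarith

end Run7.h415.RG
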